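import Pool.Agent.MP_9dc49b_gt.H35.Chain
import Pool.Agent.MP_9dc49b_gt.H61.Fin

/-!
A rationally connected closed symplectic six-manifold all of whose genus zero Gromov-Witten
invariants with two point insertions, defined as signed counts of simple spheres for a regular
compatible almost complex structure, vanish.
The witness is `S² × S² × S¹ × S¹` with the product form.
-/

open scoped Manifold ContDiff
open Pool.Agent.MP_9dc49b_gt.H35 Pool.Agent.MP_9dc49b_gt.H61

namespace Pool.Agent.Results.MP_9dc49b_gt.GWCount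

theorem result :
    ∃ (E : Type) (_ : NormedAddCommGroup E) (_ : NormedSpace ℝ E) (_ : FiniteDimensional ℝ E)
      (H : Type) (_ : TopologicalSpace H) (I : ModelWithCorners ℝ E H) (_ : I.Boundaryless)
      (X : Type) (_ : TopologicalSpace X) (_ : ChartedSpace H X) (_ : IsManifold I ∞ X)
      (_ : CompactSpace X) (_ : T2Space X) (_ : Nonempty X)
      (σ : ∀ x : X, TangentSpace I x →ₗ[ℝ] TangentSpace I x →ₗ[ℝ] ℝ)
      (J₀ : ∀ x : X, TangentSpace I x →ₗ[ℝ] TangentSpace I x),
      Module.finrank ℝ E = 6 ∧ IsSymplectic I σ ∧ Compatible I σ J₀ ∧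
      (∀ p q : X, ∃ (n : ℕ) (T : SimpleGraph (Fin n)) (u : Fin n → OnePoint ℂ → X)
        (z : Fin n → Fin n → OnePoint ℂ), TreeMap I J₀ T u z ∧ (∀ a, ∃ s t, u a s ≠ u a t) ∧
          (∃ a s, u a s = p) ∧ ∃ b t, u b t = q) ∧
      ∀ (e : H2 (OnePoint ℂ)) (A : H2 X) (k : ℕ) (d : Fin (k + 2) → ℕ) (W : Fin (k + 2) → Type)
        (_ : ∀ i, TopologicalSpace (W i))
        (_ : ∀ i, ChartedSpace (EuclideanSpace ℝ (Fin (d i))) (W i)) (g : ∀ i, C(W i, X)),
        (∀ i, ContMDiff (𝓡 (d i)) I ∞ (g i)) → Subsingleton (W 0) → Subsingleton (W 1) →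
          ∀ ν, IsGW I e A d σ g ν 0 :=
  ⟨E6, inferInstance, inferInstance, inferInstance, _, _, I6, inferInstance, X6,
    inferInstance, inferInstance, inferInstance, inferInstance, inferInstance,
    ⟨(north, north, 1, 1)⟩, sig, JJ 10, by simp, sig_symplectic, JJ_compatible 10, joined,
    fun e A _ d _ _ _ g hg h0 h1 ν => isGW_zero e A d g hg h0 h1 ν⟩

end Pool.Agent.Results.MP_9dc49b_gt.GWCount
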