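import Pool.Agent.MP_9dc49b_gt.H35.Neg
import Pool.Agent.MP_9dc49b_gt.H35.Chain
import Pool.Agent.MP_9dc49b_gt.H35.ASDim

/-!
A rationally connected closed symplectic six-manifold with a second compatible almost complex
structure `J₁` such that, on every space `M` with evaluation maps whose first two values lie on a
common connected rational `J₁`-curve (or close to one), the cup product of the pull-backs of
cohomology classes, two of them of top degree, vanishes.
The witness is `S² × S² × S¹ × S¹` with the product form.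
-/

open scoped Manifold ContDiff
open Pool.Agent.MP_9dc49b_gt.H35

namespace Pool.Agent.Results.MP_9dc49b_gt.GWVanish

theorem result :
    ∃ (E : Type) (_ : NormedAddCommGroup E) (_ : NormedSpace ℝ E) (_ : FiniteDimensional ℝ E)
      (H : Type) (_ : TopologicalSpace H) (I : ModelWithCorners ℝ E H) (_ : I.Boundaryless)
      (X : Type) (_ : TopologicalSpace X) (_ : ChartedSpace H X) (_ : IsManifold I ∞ X)
      (_ : CompactSpace X) (_ : T2Space X)
      (σ : ∀ x : X, TangentSpace I x →ₗ[ℝ] TangentSpace I x →ₗ[ℝ] ℝ)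
      (J₀ J₁ : ∀ x : X, TangentSpace I x →ₗ[ℝ] TangentSpace I x),
      Module.finrank ℝ E = 6 ∧ IsSymplectic I σ ∧ Compatible I σ J₀ ∧ Compatible I σ J₁ ∧
      (∀ p q : X, ∃ (n : ℕ) (T : SimpleGraph (Fin n)) (u : Fin n → OnePoint ℂ → X)
        (z : Fin n → Fin n → OnePoint ℂ), TreeMap I J₀ T u z ∧ (∀ a, ∃ s t, u a s ≠ u a t) ∧
          (∃ a s, u a s = p) ∧ ∃ b t, u b t = q) ∧
      ∃ O : Set (X × X), IsOpen O ∧ O ≠ Set.univ ∧
        (∀ (n : ℕ) (T : SimpleGraph (Fin n)) (u : Fin n → OnePoint ℂ → X)
          (z : Fin n → Fin n → OnePoint ℂ), TreeMap I J₁ T u z →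
            ∀ a s b t, (u a s, u b t) ∈ O) ∧
        ∀ (M : Type) (_ : TopologicalSpace M) (k : ℕ) (ev : Fin (k + 2) → M → X),
          (∀ i, Continuous (ev i)) → (∀ m, (ev 0 m, ev 1 m) ∈ O) →
            ∀ (deg : Fin (k + 2) → ℕ) (α : ∀ i, Co X (deg i + 1)),
              (∀ i, LocZero (cob (α i))) → deg 0 = 6 → deg 1 = 6 →
                ∃ ψ : Co M (∑ i, deg i), LocZero (evCup ev deg α - cob ψ) := by
  refine ⟨E6, inferInstance, inferInstance, inferInstance, _, _, I6, inferInstance, X6,
    inferInstance, inferInstance, inferInstance, inferInstance, inferInstance, sig, JJ 10, JJ 0,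
    by simp, sig_symplectic, JJ_compatible 10, JJ_compatible 0, joined,
    {z | 0 < (rat z).re}, isOpen_lt continuous_const (Complex.continuous_re.comp rat_cont),
    fun h => ?_, fun n T u z h a s b t => ?_, fun M _ k ev hev hO deg α hα h0 h1 =>
      evCup_null van_K (by norm_num) hev
        (fun m => (show 0 < (rat (ev 0 m, ev 1 m)).re from hO m).le) hα (by omega)⟩
  · have : ((north, north, Circle.exp Real.pi, 1), (north, north, 1, 1)) ∈
        {z : X6 × X6 | 0 < (rat z).re} := h ▸ Set.mem_univ _
    simp [rat, Complex.exp_pi_mul_I] at this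
    linarith
  · have h1 := congrArg Prod.fst (tree_fibre h a s b t)
    simp only [Set.mem_ofPred_eq, rat, h1]
    simp

end Pool.Agent.Results.MP_9dc49b_gt.GWVanish
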